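import Pool.Agent.Y364.HN.Gen
import Pool.Agent.H534R3.Rot

/-!
# Large Haar null sets in groups of homeomorphisms of the ball

Let `n ≥ 2`, and let `G` be any set (in particular any group) of homeomorphisms of the closed
`n`-ball which contains the rotations of one coordinate plane, or a conjugate of them by some
homeomorphism of the ball: all homeomorphisms, the orientation preserving ones, the ones which
preserve the volume, ... Then there is one Borel probability measure on `G` such that every
countable union of subsets of `G` of small metric entropy (`N(ε) ε` tends to `0` along some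
sequence of radii `ε`; in particular every countable subset of `G`) lies in a dense `G_δ` subset of
`G` all of whose two-sided translates are null. So `G` is the union of a meagre set and a Haar null
set. The starting result `BallDecomposition` is the last assertion for the orientation preserving
homeomorphisms.
-/

set_option autoImplicit false

open MeasureTheory Topology

namespace Pool.Agent.Results.MP_ee7e89_lc.LargeHaarNullSets

/-- The closed unit ball of the Euclidean space of dimension `n`. -/
def Ball (n : ℕ) : Type := Metric.closedBall (0 : EuclideanSpace ℝ (Fin n)) 1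

/-- The Euclidean metric on the ball. -/
noncomputable instance instMetricSpaceBall (n : ℕ) : MetricSpace (Ball n) :=
  inferInstanceAs (MetricSpace (Metric.closedBall (0 : EuclideanSpace ℝ (Fin n)) 1))

instance instCompactSpaceBall (n : ℕ) : CompactSpace (Ball n) :=
  inferInstanceAs (CompactSpace (Metric.closedBall (0 : EuclideanSpace ℝ (Fin n)) 1))

/-- The `i`-th coordinate of a point of the ball. -/
def Ball.coord {n : ℕ} (x : Ball n) (i : Fin n) : ℝ := x.1 i

/-- The unit sphere of the Euclidean space of dimension `n`, the boundary of the ball. -/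
def Sph (n : ℕ) : Type := Metric.sphere (0 : EuclideanSpace ℝ (Fin n)) 1

/-- The topology of the sphere, as a subspace of the Euclidean space. -/
instance instTopologicalSpaceSph (n : ℕ) : TopologicalSpace (Sph n) :=
  inferInstanceAs (TopologicalSpace (Metric.sphere (0 : EuclideanSpace ℝ (Fin n)) 1))

/-- The continuous self-maps of the ball, with the uniform metric. -/
abbrev Map (n : ℕ) : Type := C(Ball n, Ball n)

/-- The inclusion of the boundary sphere in the ball. -/
def incl {n : ℕ} (x : Sph n) : Ball n := ⟨x.1, Metric.sphere_subset_closedBall x.2⟩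

/-- A continuous self-map of the ball preserves orientation if it restricts on the boundary sphere
to a self-map of the sphere which is homotopic to the identity of the sphere. -/
def OrientationPreserving {n : ℕ} (f : C(Ball n, Ball n)) : Prop :=
  ∃ φ : C(Sph n, Sph n), (∀ x : Sph n, f (incl x) = incl (φ x)) ∧
    φ.Homotopic (ContinuousMap.id (Sph n))

/-- The group of the orientation preserving homeomorphisms of the ball, inside the space of its
continuous self-maps with the topology of uniform convergence. -/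
def HomeoPlus (n : ℕ) : Set C(Ball n, Ball n) :=
  {f | Function.Bijective f ∧ OrientationPreserving f}

/-- All homeomorphisms of the ball. -/
def Homeo (n : ℕ) : Set C(Ball n, Ball n) := {f | Function.Bijective f}

/-- `f` is the rotation by the angle with cosine `c` and sine `s` in the plane of the first two
coordinates, for some `c`, `s`. -/
def IsPlaneRotation {n : ℕ} (hn : 2 ≤ n) (f : C(Ball n, Ball n)) : Prop :=
  ∃ c s : ℝ, c ^ 2 + s ^ 2 = 1 ∧ ∀ x : Ball n,
    (f x).coord ⟨0, by omega⟩ = c * x.coord ⟨0, by omega⟩ - s * x.coord ⟨1, by omega⟩ ∧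
    (f x).coord ⟨1, by omega⟩ = s * x.coord ⟨0, by omega⟩ + c * x.coord ⟨1, by omega⟩ ∧
    ∀ i : Fin n, 2 ≤ (i : ℕ) → (f x).coord i = x.coord i

/-- `S` has small entropy: for every `δ > 0` there is `ε > 0` such that `S` is covered by finitely
many balls of radius `ε` of the uniform distance whose number is less than `δ / ε`. -/
def SmallEntropy {n : ℕ} {G : Set C(Ball n, Ball n)} (S : Set G) : Prop :=
  ∀ δ : ℝ, 0 < δ → ∃ ε : ℝ, 0 < ε ∧ ∃ F : Finset C(Ball n, Ball n),
    (∀ b ∈ S, ∃ f ∈ F, dist (b : C(Ball n, Ball n)) f < ε) ∧ (F.card : ℝ) * ε < δ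

/-- All two-sided translates (inside `G`) of the subset `N` of `G` are null for `μ`. -/
def TranslatesNull {n : ℕ} {G : Set C(Ball n, Ball n)} (μ : @Measure G (borel G))
    (N : Set G) : Prop :=
  ∀ g h : G, μ {x : G | ∃ b ∈ N, x.1 = g.1.comp (b.1.comp h.1)} = 0

/-- `N` is Haar null in `G`: it lies in a Borel set all of whose two-sided translates are null for
one Borel probability measure. -/
def HaarNull {n : ℕ} {G : Set C(Ball n, Ball n)} (N : Set G) : Prop :=
  ∃ B : Set G, N ⊆ B ∧ @MeasurableSet G (borel G) B ∧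
    ∃ μ : @Measure G (borel G), @IsProbabilityMeasure G (borel G) μ ∧ TranslatesNull μ B

/-- `G` contains the maps `φ R φ⁻¹` for all rotations `R` of the first coordinate plane. -/
def ContainsRotations {n : ℕ} (hn : 2 ≤ n) (φ : Ball n ≃ₜ Ball n) (G : Set C(Ball n, Ball n)) :
    Prop :=
  ∀ f, IsPlaneRotation hn f →
    (φ : C(Ball n, Ball n)).comp (f.comp (φ.symm : C(Ball n, Ball n))) ∈ G

/-- There is one Borel probability measure on `G` such that every countable union of subsets of
small entropy of `G` is contained in a dense `G_δ` subset of `G` whose translates are all null. -/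
def LargeNullSets {n : ℕ} (G : Set C(Ball n, Ball n)) : Prop :=
  ∃ μ : @Measure G (borel G), @IsProbabilityMeasure G (borel G) μ ∧
    ∀ S : ℕ → Set G, (∀ i, SmallEntropy (S i)) →
      ∃ N : Set G, IsGδ N ∧ Dense N ∧ (∀ i, S i ⊆ N) ∧ TranslatesNull μ N

/-- `G` is the union of a meagre set and a Haar null set. -/
def MeagreUnionNull {n : ℕ} (G : Set C(Ball n, Ball n)) : Prop :=
  ∃ M N : Set G, M ∪ N = Set.univ ∧ IsMeagre M ∧ HaarNull N

/-- Every countable subset of `G` is contained in a Haar null `G_δ` subset of `G`. -/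
def CountableInNullGδ {n : ℕ} (G : Set C(Ball n, Ball n)) : Prop :=
  ∀ C : Set G, C.Countable → ∃ N, C ⊆ N ∧ IsGδ N ∧ HaarNull N

/-- The rotations of the first coordinate plane. -/
noncomputable def Rm {d : ℕ} (s : UnitAddCircle) : Map (d + 2) :=
  Pool.Agent.H534R3.Rot.RD (d := d) s

theorem Rm_coord {d : ℕ} (s : UnitAddCircle) (x : Ball (d + 2)) (i : Fin (d + 2)) :
    (Rm s x).coord i = Pool.Agent.H534R3.Rot.rot (d := d) (Pool.Agent.H534R3.Rot.cc s)
      (Pool.Agent.H534R3.Rot.ss s) x.1 i := rfl

theorem Rm_zero {d : ℕ} : (Rm 0 : Map (d + 2)) = ContinuousMap.id _ :=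
  Pool.Agent.H534R3.Rot.RD_zero

theorem Rm_add {d : ℕ} (s t : UnitAddCircle) :
    (Rm (s + t) : Map (d + 2)) = (Rm s).comp (Rm t) :=
  Pool.Agent.H534R3.Rot.RD_add s t

theorem continuous_Rm {d : ℕ} : Continuous (Rm : UnitAddCircle → Map (d + 2)) :=
  Pool.Agent.H534R3.Rot.continuous_RD (d := d)

theorem Rm_big {d : ℕ} (g : Ball (d + 2) ≃ₜ Ball (d + 2)) :
    ∃ s, (1 / 2 : ℝ) ≤ dist ((g : Map (d + 2)).comp (Rm s)) (g : Map (d + 2)) :=
  Pool.Agent.H534R3.Rot.ball_big (d := d) g

theorem Rm_rotation {d : ℕ} (hn : 2 ≤ d + 2) (s : UnitAddCircle) :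
    IsPlaneRotation hn (Rm s : Map (d + 2)) := by
  refine ⟨Pool.Agent.H534R3.Rot.cc s, Pool.Agent.H534R3.Rot.ss s,
    Pool.Agent.H534R3.Rot.cc_sq s, fun x => ⟨?_, ?_, ?_⟩⟩
  · exact Pool.Agent.H534R3.Rot.rot_zero _ _ _
  · exact Pool.Agent.H534R3.Rot.rot_one _ _ _
  · intro i hi
    obtain ⟨j, rfl⟩ : ∃ j : Fin d, i = j.succ.succ :=
      ⟨⟨(i : ℕ) - 2, by omega⟩, by ext; simp; omega⟩
    exact Pool.Agent.H534R3.Rot.rot_succ _ _ _ _

theorem rotation_eq {d : ℕ} (hn : 2 ≤ d + 2) (f : Map (d + 2)) (hf : IsPlaneRotation hn f) :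
    ∃ t, f = Rm t := by
  obtain ⟨c, s, hcs, hf⟩ := hf
  obtain ⟨t, rfl, rfl⟩ := Pool.Agent.H534R3.Rot.exists_cc_ss hcs
  refine ⟨t, ?_⟩
  ext1 x
  apply Subtype.ext
  obtain ⟨h0, h1, h2⟩ := hf x
  exact Pool.Agent.H534R3.Rot.ext_coords h0 h1 fun i => h2 i.succ.succ (by simp)

theorem main (n : ℕ) (hn : 2 ≤ n) (G : Set C(Ball n, Ball n)) (hG : G ⊆ Homeo n)
    (φ : Ball n ≃ₜ Ball n)
    (hφ : ∀ f, IsPlaneRotation hn f →
      (φ : C(Ball n, Ball n)).comp (f.comp (φ.symm : C(Ball n, Ball n))) ∈ G) :
    LargeNullSets G := by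
  obtain ⟨d, rfl⟩ : ∃ d, n = d + 2 := ⟨n - 2, by omega⟩
  set R : UnitAddCircle → Map (d + 2) := fun s =>
    (φ : Map (d + 2)).comp ((Rm s).comp (φ.symm : Map (d + 2))) with hR
  obtain ⟨μ, h1, h2⟩ := Pool.Agent.Y364.HN.large (X := Ball (d + 2)) G hG R
    ((ContinuousMap.continuous_postcomp _).comp ((ContinuousMap.continuous_precomp _).comp
      continuous_Rm))
    (fun s => hφ _ (Rm_rotation hn s))
    (by
      ext1 x
      change φ (Rm 0 (φ.symm x)) = x
      rw [Rm_zero]
      exact φ.apply_symm_apply x)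
    (by
      intro s t
      ext1 x
      change φ (Rm (s + t) (φ.symm x)) = φ (Rm s (φ.symm (φ (Rm t (φ.symm x)))))
      rw [Rm_add, φ.symm_apply_apply]
      rfl)
    (1 / 2) one_half_pos
    (by
      intro g
      obtain ⟨s, hs⟩ := Rm_big (d := d) (φ.trans g)
      refine ⟨s, hs.trans ?_⟩
      rw [ContinuousMap.dist_le dist_nonneg]
      intro x
      have h3 := ContinuousMap.dist_apply_le_dist
        (f := (g : Map (d + 2)).comp (R s)) (g := (g : Map (d + 2))) (φ x)
      have h4 : ((g : Map (d + 2)).comp (R s)) (φ x) = g (φ (Rm s x)) := by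
        change g (φ (Rm s (φ.symm (φ x)))) = _
        rw [φ.symm_apply_apply]
      rw [h4] at h3
      exact h3)
    (borel G) rfl
  refine ⟨μ, h1, fun S hS => ?_⟩
  refine h2 S fun i δ hδ => ?_
  obtain ⟨ε, hε, F, hF, hc⟩ := hS i δ hδ
  refine ⟨ε, hε, F, ?_, hc⟩
  rintro _ ⟨b, hb, rfl⟩
  exact hF b hb

/-- A set of homeomorphisms with the property of `main` is the union of a meagre set and a Haar null
set. -/
theorem decomposition {n : ℕ} {G : Set C(Ball n, Ball n)} (μ : @Measure G (borel G))
    (h1 : @IsProbabilityMeasure G (borel G) μ)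
    (h2 : ∀ S : ℕ → Set G, (∀ i, SmallEntropy (S i)) →
        ∃ N : Set G, IsGδ N ∧ Dense N ∧ (∀ i, S i ⊆ N) ∧ TranslatesNull μ N) :
    ∃ M N : Set G, M ∪ N = Set.univ ∧ IsMeagre M ∧ HaarNull N := by
  obtain ⟨N, hN, hd, -, ht⟩ := h2 (fun _ => ∅) (fun _ δ hδ => ⟨1, one_pos, ∅, by simp, by simpa⟩)
  refine ⟨Nᶜ, N, Set.compl_union_self N, ?_, N, le_refl _, ?_, μ, h1, ht⟩
  · rw [IsMeagre, compl_compl]
    exact residual_of_dense_Gδ hN hd
  · let _ : MeasurableSpace G := borel G
    have : BorelSpace G := ⟨rfl⟩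
    exact hN.measurableSet

/-- **Theorem.**
1. Let `n ≥ 2` and let `G` be a set of homeomorphisms of the `n`-ball which contains `φ R φ⁻¹` for
   the rotations `R` of the first coordinate plane, where `φ` is some homeomorphism of the ball.
   There is a Borel probability measure `μ` on `G` such that all countable unions of sets of small
   entropy lie in dense `G_δ` subsets of `G` all of whose translates are null for `μ`.
   So `G` is the union of a meagre set and a Haar null set, and every countable subset of `G` lies in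
   a Haar null `G_δ` set.
2. In particular, for every `n ≥ 2`, the group of the orientation preserving homeomorphisms of the
   `n`-ball and the group of all homeomorphisms are unions of a meagre set and a Haar null set. -/
theorem result :
    (∀ (n : ℕ) (hn : 2 ≤ n) (G : Set C(Ball n, Ball n)), G ⊆ Homeo n →
      ∀ φ : Ball n ≃ₜ Ball n, ContainsRotations hn φ G →
        LargeNullSets G ∧ MeagreUnionNull G ∧ CountableInNullGδ G) ∧
    ∀ n : ℕ, 2 ≤ n → MeagreUnionNull (HomeoPlus n) ∧ MeagreUnionNull (Homeo n) := by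
  have hA : ∀ (n : ℕ) (hn : 2 ≤ n) (f : C(Ball n, Ball n)), IsPlaneRotation hn f →
      f ∈ HomeoPlus n := by
    intro n hn f hf
    obtain ⟨d, rfl⟩ : ∃ d, n = d + 2 := ⟨n - 2, by omega⟩
    obtain ⟨t, rfl⟩ := rotation_eq hn f hf
    exact ⟨Pool.Agent.H534R3.Rot.RD_bijective t, Pool.Agent.H534R3.Rot.RS t, fun x => rfl,
      Pool.Agent.H534R3.Rot.RS_homotopic t⟩
  have hB : ∀ (n : ℕ), HomeoPlus n ⊆ Homeo n := fun n f hf => hf.1
  have hid : ∀ (n : ℕ) (f : C(Ball n, Ball n)),
      ((Homeomorph.refl (Ball n) : Ball n ≃ₜ Ball n) : C(Ball n, Ball n)).comp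
        (f.comp ((Homeomorph.refl (Ball n)).symm : C(Ball n, Ball n))) = f := by
    intro n f
    ext1 x
    rfl
  have hcount : ∀ (n : ℕ) (G : Set C(Ball n, Ball n)) (μ : @Measure G (borel G)),
      @IsProbabilityMeasure G (borel G) μ →
      (∀ S : ℕ → Set G, (∀ i, SmallEntropy (S i)) →
          ∃ N : Set G, IsGδ N ∧ Dense N ∧ (∀ i, S i ⊆ N) ∧ TranslatesNull μ N) →
      ∀ C : Set G, C.Countable → ∃ N, C ⊆ N ∧ IsGδ N ∧ HaarNull N := by
    intro n G μ h1 h2 C hC
    rcases C.eq_empty_or_nonempty with rfl | hne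
    · obtain ⟨N, hN, hd, -, ht⟩ := h2 (fun _ => ∅)
        (fun _ δ hδ => ⟨1, one_pos, ∅, by simp, by simpa⟩)
      refine ⟨N, Set.empty_subset _, hN, N, le_refl _, ?_, μ, h1, ht⟩
      let _ : MeasurableSpace G := borel G
      have : BorelSpace G := ⟨rfl⟩
      exact hN.measurableSet
    · obtain ⟨e, he⟩ := hC.exists_eq_range hne
      obtain ⟨N, hN, hd, hs, ht⟩ := h2 (fun i => {e i}) (fun i δ hδ =>
        ⟨δ / 2, by positivity, {(e i : C(Ball n, Ball n))}, by
          intro b hb
          rw [Set.mem_singleton_iff.1 hb]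
          exact ⟨_, Finset.mem_singleton_self _, by rw [dist_self]; positivity⟩, by
          simp only [Finset.card_singleton, Nat.cast_one, one_mul]; linarith⟩)
      refine ⟨N, ?_, hN, N, le_refl _, ?_, μ, h1, ht⟩
      · rw [he]
        rintro _ ⟨i, rfl⟩
        exact hs i rfl
      · let _ : MeasurableSpace G := borel G
        have : BorelSpace G := ⟨rfl⟩
        exact hN.measurableSet
  refine ⟨fun n hn G hG φ hφ => ?_, fun n hn => ?_⟩
  · obtain ⟨μ, h1, h2⟩ := main n hn G hG φ hφ
    exact ⟨⟨μ, h1, h2⟩, decomposition μ h1 h2, hcount n G μ h1 h2⟩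
  · obtain ⟨μ, h1, h2⟩ := main n hn (HomeoPlus n) (hB n) (Homeomorph.refl _)
      (fun f hf => by rw [hid]; exact hA n hn f hf)
    obtain ⟨ν, h3, h4⟩ := main n hn (Homeo n) (fun _ h => h) (Homeomorph.refl _)
      (fun f hf => by rw [hid]; exact hB n (hA n hn f hf))
    exact ⟨decomposition μ h1 h2, decomposition ν h3 h4⟩

end Pool.Agent.Results.MP_ee7e89_lc.LargeHaarNullSets
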